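import Mathlib
import Pool.Agent.H918R2.OnlyP
import Pool.Agent.H918R2.CharP3

set_option autoImplicit false

open Pool.Agent.Helper947.Crv Pool.Agent.H918R2

namespace Pool.Agent.Results.MP_eba2ed_ag.EveryPrime

/-- For every prime `p`, the Hilbert scheme over the integers of curves in projective 3-space of
degree `6p + 14` and arithmetic genus `-(56p² + 184p + 146)` exists and has an irreducible component
which exists only in characteristic `p`. -/
theorem result (p : ℕ) (hp : p.Prime) :
    Nonempty (HilbertScheme (6 * p + 14) (-(56 * p ^ 2 + 184 * p + 146))) ∧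
    ∀ 𝓗 : HilbertScheme (6 * p + 14) (-(56 * p ^ 2 + 184 * p + 146)),
      ∃ Z ∈ irreducibleComponents 𝓗.H, ExistsOnlyInChar 𝓗 p Z := by
  have : Fact p.Prime := ⟨hp⟩
  exact existsOnlyInChar p

end Pool.Agent.Results.MP_eba2ed_ag.EveryPrime
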